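import Mathlib

/-!
# Subgroup lattices of abelian groups that do not embed in subspace lattices

Not a hand-in (withdrawn): the answer follows from Hutchinson and Czedli, A test for identities satisfied in lattices
of submodules, Algebra Universalis 8 (1978).

Let `A` be an abelian group which has a section `H / K` isomorphic to `(ℤ/n)³`, where `n ≠ 1`. If
the lattice of subgroups of `A` has a lattice embedding into the lattice of subspaces of a vector
space over a division ring `D`, then `n` is a prime number and `D` has characteristic `n`. In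
particular the (finite) subgroup lattice of `(ℤ/4)³` embeds into no such lattice of subspaces.
-/

set_option autoImplicit false

universe u v w

namespace Pool.Agent.L0h57.Known.NoEmbedding

/-- `IsLatticeEmbedding f`: the map `f` between lattices is injective and preserves binary meets
and binary joins (least and greatest elements need not be preserved). -/
def IsLatticeEmbedding {L : Type u} {M : Type v} [Lattice L] [Lattice M] (f : L → M) : Prop :=
  Function.Injective f ∧ (∀ x y : L, f (x ⊓ y) = f x ⊓ f y) ∧ (∀ x y : L, f (x ⊔ y) = f x ⊔ f y)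

section core

variable {n : ℕ}

/-- the cyclic subgroup of `(ℤ/n)³` generated by `(a, b, c)` -/
def Z (a b c : ZMod n) : AddSubgroup (Fin 3 → ZMod n) := AddSubgroup.zmultiples ![a, b, c]

theorem mem_Z {a b c : ZMod n} {x : Fin 3 → ZMod n} :
    x ∈ Z a b c ↔ ∃ t : ZMod n, x 0 = t * a ∧ x 1 = t * b ∧ x 2 = t * c := by
  rw [Z, AddSubgroup.mem_zmultiples_iff]
  constructor
  · rintro ⟨k, rfl⟩
    exact ⟨(k : ZMod n), by simp, by simp, by simp⟩
  · rintro ⟨t, h0, h1, h2⟩
    obtain ⟨k, rfl⟩ := ZMod.intCast_surjective t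
    refine ⟨k, ?_⟩
    funext i
    fin_cases i
    · simpa using h0.symm
    · simpa using h1.symm
    · simpa using h2.symm

theorem mem_Z_sup {a b c a' b' c' : ZMod n} {x : Fin 3 → ZMod n} :
    x ∈ Z a b c ⊔ Z a' b' c' ↔ ∃ s t : ZMod n, x 0 = s * a + t * a' ∧ x 1 = s * b + t * b' ∧
      x 2 = s * c + t * c' := by
  rw [AddSubgroup.mem_sup]
  constructor
  · rintro ⟨y, hy, z, hz, rfl⟩
    obtain ⟨s, h0, h1, h2⟩ := mem_Z.1 hy
    obtain ⟨t, k0, k1, k2⟩ := mem_Z.1 hz
    exact ⟨s, t, by simp [h0, k0], by simp [h1, k1], by simp [h2, k2]⟩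
  · rintro ⟨s, t, h0, h1, h2⟩
    refine ⟨![s * a, s * b, s * c], mem_Z.2 ⟨s, rfl, rfl, rfl⟩,
      ![t * a', t * b', t * c'], mem_Z.2 ⟨t, rfl, rfl, rfl⟩, ?_⟩
    funext i
    fin_cases i
    · simpa using h0.symm
    · simpa using h1.symm
    · simpa using h2.symm

theorem eq_zero_of {x : Fin 3 → ZMod n} (h0 : x 0 = 0) (h1 : x 1 = 0) (h2 : x 2 = 0) : x = 0 := by
  funext i
  fin_cases i
  · exact h0
  · exact h1
  · exact h2

theorem step (r : ℕ) :
    (((Z (1 : ZMod n) (-(r : ZMod n)) 0 ⊔ Z 0 0 1) ⊓ (Z 1 0 (-1) ⊔ Z 0 1 0)) ⊔ Z 0 (-1) 1) ⊓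
      (Z 1 0 0 ⊔ Z 0 1 0) ≤ Z (1 : ZMod n) (-((r + 1 : ℕ) : ZMod n)) 0 := by
  intro x hx
  obtain ⟨hx1, hx2⟩ := AddSubgroup.mem_inf.1 hx
  obtain ⟨p, hp, t, ht, rfl⟩ := AddSubgroup.mem_sup.1 hx1
  obtain ⟨hp1, hp2⟩ := AddSubgroup.mem_inf.1 hp
  obtain ⟨α, β, a0, a1, a2⟩ := mem_Z_sup.1 hp1
  obtain ⟨γ, δ, b0, b1, b2⟩ := mem_Z_sup.1 hp2
  obtain ⟨τ, c0, c1, c2⟩ := mem_Z.1 ht
  obtain ⟨μ, ν, d0, d1, d2⟩ := mem_Z_sup.1 hx2
  simp only [Pi.add_apply, mul_zero, mul_one, add_zero, zero_add, mul_neg] at *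
  have hτ : τ = α := by
    have h1 : α = γ := by rw [← a0, b0]
    have h2 : β = -γ := by rw [← a2, b2]
    rw [a2, c2, h2] at d2
    rw [h1]
    linear_combination d2
  refine mem_Z.2 ⟨α, ?_, ?_, ?_⟩
  · simp [a0, c0]
  · rw [Pi.add_apply, a1, c1, hτ]
    push_cast
    ring
  · rw [Pi.add_apply, a2, c2] at *
    simpa using d2

variable {D : Type u} [DivisionRing D] {V : Type v} [AddCommGroup V] [Module D V]

theorem core (hn0 : n ≠ 0) (hn1 : n ≠ 1) (f : AddSubgroup (Fin 3 → ZMod n) → Submodule D V)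
    (hf : IsLatticeEmbedding f) : n.Prime ∧ CharP D n := by
  obtain ⟨hinj, hinf, hsup⟩ := hf
  have hmono : ∀ {H K : AddSubgroup (Fin 3 → ZMod n)}, H ≤ K → f H ≤ f K := by
    intro H K h
    have h1 : H ⊔ K = K := sup_eq_right.2 h
    rw [← h1, hsup]
    exact le_sup_left
  have hone : (1 : ZMod n) ≠ 0 := by
    intro h
    have h1 : ((1 : ℕ) : ZMod n) = 0 := by simpa using h
    rw [ZMod.natCast_eq_zero_iff] at h1
    exact hn1 (Nat.dvd_one.1 h1)
  -- for each `x` in `f <e₁>` there is a `y` in `f <e₂>` with `x - r y` in `f <e₁ - r e₂>`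
  have key : ∀ x ∈ f (Z 1 0 0), ∃ y ∈ f (Z 0 1 0),
      (y ∈ f ⊥ → x ∈ f ⊥) ∧ ∀ r : ℕ, x - (r : D) • y ∈ f (Z 1 (-(r : ZMod n)) 0) := by
    intro x hx
    have h1 : Z (1 : ZMod n) 0 0 ≤ Z 1 0 (-1) ⊔ Z 0 0 1 := by
      intro w hw
      obtain ⟨t, t0, t1, t2⟩ := mem_Z.1 hw
      exact mem_Z_sup.2 ⟨t, t, by simp [t0], by simp [t1], by simp [t2]⟩
    have h2 : Z (0 : ZMod n) 0 1 ≤ Z 0 (-1) 1 ⊔ Z 0 1 0 := by
      intro w hw
      obtain ⟨t, t0, t1, t2⟩ := mem_Z.1 hw
      exact mem_Z_sup.2 ⟨t, t, by simp [t0], by simp [t1], by simp [t2]⟩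
    have hx' : x ∈ f (Z 1 0 (-1)) ⊔ f (Z 0 0 1) := by
      rw [← hsup]
      exact hmono h1 hx
    obtain ⟨c, hc, z, hz, hcz⟩ := Submodule.mem_sup.1 hx'
    have hz' : z ∈ f (Z 0 (-1) 1) ⊔ f (Z 0 1 0) := by
      rw [← hsup]
      exact hmono h2 hz
    obtain ⟨c', hc', y, hy, hcy⟩ := Submodule.mem_sup.1 hz'
    refine ⟨y, hy, ?_, ?_⟩
    · intro hy0
      have hz1 : z ∈ f (Z 0 (-1) 1) := by
        rw [← hcy]
        exact add_mem hc' (hmono bot_le hy0)
      have hz2 : z ∈ f (Z 0 0 1 ⊓ Z 0 (-1) 1) := by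
        rw [hinf]
        exact ⟨hz, hz1⟩
      have hz3 : Z (0 : ZMod n) 0 1 ⊓ Z 0 (-1) 1 ≤ ⊥ := by
        intro w hw
        obtain ⟨hw1, hw2⟩ := AddSubgroup.mem_inf.1 hw
        obtain ⟨t, t0, t1, t2⟩ := mem_Z.1 hw1
        obtain ⟨s, s0, s1, s2⟩ := mem_Z.1 hw2
        rw [AddSubgroup.mem_bot]
        refine eq_zero_of (by simpa using t0) (by simpa using t1) ?_
        have e1 : s = 0 := by
          have := s1.symm.trans t1
          simpa using this
        rw [s2, e1]
        simp
      have hx1 : x ∈ f (Z 1 0 (-1)) := by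
        rw [← hcz]
        exact add_mem hc (hmono bot_le (hmono hz3 hz2))
      have hx2 : x ∈ f (Z 1 0 0 ⊓ Z 1 0 (-1)) := by
        rw [hinf]
        exact ⟨hx, hx1⟩
      have hx3 : Z (1 : ZMod n) 0 0 ⊓ Z 1 0 (-1) ≤ ⊥ := by
        intro w hw
        obtain ⟨hw1, hw2⟩ := AddSubgroup.mem_inf.1 hw
        obtain ⟨t, t0, t1, t2⟩ := mem_Z.1 hw1
        obtain ⟨s, s0, s1, s2⟩ := mem_Z.1 hw2
        rw [AddSubgroup.mem_bot]
        refine eq_zero_of ?_ (by simpa using t1) (by simpa using t2)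
        have e1 : s = 0 := by
          have := s2.symm.trans t2
          simpa using this
        rw [s0, e1]
        simp
      exact hmono hx3 hx2
    · intro r
      induction r with
      | zero =>
        have : x - ((0 : ℕ) : D) • y = x := by simp
        rw [this]
        refine hmono ?_ hx
        intro w hw
        obtain ⟨t, t0, t1, t2⟩ := mem_Z.1 hw
        exact mem_Z.2 ⟨t, by simpa using t0, by simpa using t1, by simpa using t2⟩
      | succ r ih =>
        refine hmono (step r) ?_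
        rw [hinf, hsup, hinf, hsup, hsup, hsup]
        have e : x - ((r + 1 : ℕ) : D) • y = (x - (r : D) • y + -z) + c' := by
          have e1 : c' = z - y := by rw [← hcy]; abel
          rw [e1]
          push_cast
          rw [add_smul, one_smul]
          abel
        refine ⟨?_, ?_⟩
        · rw [e]
          refine Submodule.mem_sup.2 ⟨_, ⟨?_, ?_⟩, _, hc', rfl⟩
          · exact Submodule.add_mem_sup ih (neg_mem hz)
          · have e2 : x - (r : D) • y + -z = c + -((r : D) • y) := by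
              rw [← hcz]; abel
            rw [e2]
            exact Submodule.add_mem_sup hc (neg_mem (Submodule.smul_mem _ _ hy))
        · rw [sub_eq_add_neg]
          exact Submodule.add_mem_sup hx (neg_mem (Submodule.smul_mem _ _ hy))
  -- choose `x` in `f <e₁>` outside `f 0`
  have hlt : ¬ f (Z 1 0 0) ≤ f ⊥ := by
    intro h
    have h1 : f (Z 1 0 0) = f ⊥ := le_antisymm h (hmono bot_le)
    have h2 := hinj h1
    have h3 : (![1, 0, 0] : Fin 3 → ZMod n) ∈ Z (1 : ZMod n) 0 0 :=
      mem_Z.2 ⟨1, by simp, by simp, by simp⟩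
    rw [h2, AddSubgroup.mem_bot] at h3
    exact hone (by simpa using congrFun h3 0)
  obtain ⟨x₀, hx₀, hx₀'⟩ := SetLike.not_le_iff_exists.1 hlt
  have hnD : (n : D) = 0 := by
    by_contra hne
    obtain ⟨y, hy, hy0, hr⟩ := key x₀ hx₀
    apply hx₀'
    apply hy0
    have h1 := hr n
    have h2 : x₀ - (n : D) • y ∈ f (Z 1 0 0) := by
      refine hmono ?_ h1
      intro w hw
      obtain ⟨t, t0, t1, t2⟩ := mem_Z.1 hw
      exact mem_Z.2 ⟨t, by simpa using t0, by simpa using t1, by simpa using t2⟩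
    have h3 : (n : D) • y ∈ f (Z 1 0 0) := by
      have := sub_mem hx₀ h2
      simpa using this
    have h4 : y ∈ f (Z 1 0 0) := by
      have := Submodule.smul_mem _ ((n : D)⁻¹) h3
      rwa [smul_smul, inv_mul_cancel₀ hne, one_smul] at this
    have h5 : y ∈ f (Z 1 0 0 ⊓ Z 0 1 0) := by
      rw [hinf]
      exact ⟨h4, hy⟩
    refine hmono ?_ h5
    intro w hw
    obtain ⟨hw1, hw2⟩ := AddSubgroup.mem_inf.1 hw
    obtain ⟨t, t0, t1, t2⟩ := mem_Z.1 hw1
    obtain ⟨s, s0, s1, s2⟩ := mem_Z.1 hw2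
    rw [AddSubgroup.mem_bot]
    exact eq_zero_of (by simpa using s0) (by simpa using t1) (by simpa using t2)
  obtain ⟨q, hq⟩ := CharP.exists D
  have hqn : q ∣ n := (CharP.cast_eq_zero_iff D q n).1 hnD
  have hq0 : q ≠ 0 := by
    rintro rfl
    exact hn0 (Nat.eq_zero_of_zero_dvd hqn)
  have hqp : q.Prime := (CharP.char_is_prime_or_zero D q).resolve_right hq0
  have hle : f (Z 1 0 0) ≤ f (Z 1 (-(q : ZMod n)) 0) := by
    intro x hx
    obtain ⟨y, hy, hy0, hr⟩ := key x hx
    have h1 := hr q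
    have h2 : (q : D) = 0 := CharP.cast_eq_zero D q
    rwa [h2, zero_smul, sub_zero] at h1
  have hle' : Z 1 0 0 ≤ Z 1 (-(q : ZMod n)) 0 := by
    rw [← inf_eq_left]
    apply hinj
    rw [hinf, inf_eq_left]
    exact hle
  have hmem : (![1, 0, 0] : Fin 3 → ZMod n) ∈ Z 1 (-(q : ZMod n)) 0 :=
    hle' (mem_Z.2 ⟨1, by simp, by simp, by simp⟩)
  obtain ⟨t, t0, t1, t2⟩ := mem_Z.1 hmem
  have ht : t = 1 := by simpa using t0.symm
  have hqz : (q : ZMod n) = 0 := by
    rw [ht] at t1
    simpa using t1.symm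
  rw [ZMod.natCast_eq_zero_iff] at hqz
  have hnq : n = q := (Nat.dvd_antisymm hqn hqz).symm
  subst hnq
  exact ⟨hqp, hq⟩

end core

/-- the inverse image in `A` of a subgroup of a section of `A` -/
theorem section_embedding {A : Type w} [AddCommGroup A] {B : Type u} [AddCommGroup B]
    (H : AddSubgroup A) (φ : H →+ B) (hφ : Function.Surjective φ) :
    IsLatticeEmbedding (fun T : AddSubgroup B => (T.comap φ).map H.subtype) := by
  refine ⟨?_, ?_, ?_⟩
  · intro S T hST
    have h1 : S.comap φ = T.comap φ :=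
      AddSubgroup.map_injective (H.subtype_injective) hST
    exact AddSubgroup.comap_injective hφ h1
  · intro S T
    simp only
    rw [← AddSubgroup.map_inf _ _ _ H.subtype_injective, ← AddSubgroup.comap_inf]
  · intro S T
    simp only
    rw [← AddSubgroup.map_sup]
    congr 1
    apply le_antisymm
    · intro x hx
      rw [AddSubgroup.mem_comap, AddSubgroup.mem_sup] at hx
      obtain ⟨s, hs, t, ht, hst⟩ := hx
      obtain ⟨y, rfl⟩ := hφ s
      refine AddSubgroup.mem_sup.2 ⟨y, hs, x - y, ?_, by abel⟩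
      rw [AddSubgroup.mem_comap, map_sub, ← hst]
      simpa using ht
    · exact sup_le (AddSubgroup.comap_mono le_sup_left) (AddSubgroup.comap_mono le_sup_right)

theorem comp_embedding {L : Type u} {M : Type v} {N : Type w} [Lattice L] [Lattice M] [Lattice N]
    {f : L → M} {g : M → N} (hf : IsLatticeEmbedding f) (hg : IsLatticeEmbedding g) :
    IsLatticeEmbedding (fun x => g (f x)) := by
  refine ⟨fun x y h => hf.1 (hg.1 h), fun x y => ?_, fun x y => ?_⟩
  · simp only [hf.2.1, hg.2.1]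
  · simp only [hf.2.2, hg.2.2]

/-- **Full answer to Q1 and Q2.** (1) If an abelian group `A` has a section isomorphic to `(ℤ/n)³`
with `n ≠ 1` (that is, some subgroup `H` of `A` has a surjective homomorphism onto `(ℤ/n)³`) and
the lattice of subgroups of `A` embeds into the lattice of subspaces of a vector space over a
division ring `D`, then `n` is prime and `D` has characteristic `n`. (2) The group `(ℤ/4)³` is
finite and its lattice of subgroups embeds into the lattice of subspaces of no vector space over a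
division ring. -/
theorem result :
    (∀ (A : Type w) [AddCommGroup A] (n : ℕ), n ≠ 1 → ∀ (H : AddSubgroup A)
      (φ : H →+ (Fin 3 → ZMod n)), Function.Surjective φ →
      ∀ (D : Type u) [DivisionRing D] (V : Type v) [AddCommGroup V] [Module D V]
        (f : AddSubgroup A → Submodule D V), IsLatticeEmbedding f → n.Prime ∧ CharP D n) ∧
    (Finite (Fin 3 → ZMod 4) ∧
      ∀ (D : Type u) [DivisionRing D] (V : Type v) [AddCommGroup V] [Module D V],
        ¬ ∃ f : AddSubgroup (Fin 3 → ZMod 4) → Submodule D V, IsLatticeEmbedding f) := by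
  have h4 : ¬ Nat.Prime 4 := by norm_num
  refine ⟨?_, ?_, ?_⟩
  · intro A _ n hn H φ hφ D _ V _ _ f hf
    by_cases hn0 : n = 0
    · exfalso
      subst hn0
      -- reduce modulo `4`
      let ψ : (Fin 3 → ZMod 0) →+ (Fin 3 → ZMod 4) :=
        { toFun := fun x i => ZMod.castHom (dvd_zero 4) (ZMod 4) (x i)
          map_zero' := by
            funext i
            exact map_zero _
          map_add' := by
            intro x y
            funext i
            exact map_add _ (x i) (y i) }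
      have hψ : Function.Surjective ψ := by
        intro y
        choose k hk using fun i =>
          ZMod.ringHom_surjective (ZMod.castHom (dvd_zero 4) (ZMod 4)) (y i)
        exact ⟨k, funext hk⟩
      have := core (n := 4) (by norm_num) (by norm_num) _
        (comp_embedding (section_embedding H (ψ.comp φ) (hψ.comp hφ)) hf)
      exact h4 this.1
    · exact core hn0 hn _ (comp_embedding (section_embedding H φ hφ) hf)
  · infer_instance
  · rintro D _ V _ _ ⟨f, hf⟩
    exact h4 (core (n := 4) (by norm_num) (by norm_num) f hf).1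

end Pool.Agent.L0h57.Known.NoEmbedding
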